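import Pool.Agent.UCH.StmtsD
import Pool.Agent.Helper84_UCH.LPC

/-!
# UCH, row CCF: finitely many charts for the lc places whose values have gaps
-/

set_option autoImplicit false

namespace Pool.Agent.UCH.H72

open Pool.Agent.LCI Pool.Agent.DFO Pool.Agent.QMA Pool.Agent.UCH
open scoped BigOperators

theorem germK_of_germ {k R : Type} [Field k] [CommRing R] [Algebra k R]
    {m : Ideal R} (h : IsGerm k m) : Pool.Agent.QMK.IsGermK k m where
  max := by
    rw [Ideal.isMaximal_iff]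
    refine ⟨h.proper, ?_⟩
    intro J x hmJ hxm hxJ
    obtain ⟨c, hc⟩ := h.res x
    have hc0 : c ≠ 0 := by
      intro h0
      apply hxm
      rw [h0, map_zero, sub_zero] at hc
      exact hc
    have h1 : algebraMap k R c ∈ J := by
      have h2 := J.sub_mem hxJ (hmJ hc)
      rw [sub_sub_cancel] at h2
      exact h2
    have h3 := J.mul_mem_left (algebraMap k R c⁻¹) h1
    rw [← map_mul, inv_mul_cancel₀ hc0, map_one] at h3
    exact h3
  res := by
    intro f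
    obtain ⟨c, hc⟩ := h.res f
    refine ⟨Polynomial.X - Polynomial.C c, Polynomial.X_sub_C_ne_zero c, ?_⟩
    simpa using hc
  fg := h.fg

/-- Finitely many functions of a compact set of functions approximate the others on finite sets. -/
theorem cover {R : Type} {S : Set (R → ℝ)} (hS : IsCompact S) (X : (R → ℝ) → Finset R)
    (δ : (R → ℝ) → ℝ) (hδ : ∀ φ ∈ S, 0 < δ φ) :
    ∃ t : Set (R → ℝ), t.Finite ∧ t ⊆ S ∧
      ∀ ψ ∈ S, ∃ φ ∈ t, ∀ x ∈ X φ, |ψ x - φ x| < δ φ := by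
  classical
  have hU : ∀ φ ∈ S, {ψ : R → ℝ | ∀ x ∈ X φ, |ψ x - φ x| < δ φ} ∈ nhds φ := by
    intro φ hφ
    have hopen : IsOpen {ψ : R → ℝ | ∀ x ∈ X φ, |ψ x - φ x| < δ φ} := by
      have h1 : {ψ : R → ℝ | ∀ x ∈ X φ, |ψ x - φ x| < δ φ} =
          ⋂ x ∈ X φ, {ψ : R → ℝ | |ψ x - φ x| < δ φ} := by
        ext ψ
        simp only [Set.mem_setOf_eq, Set.mem_iInter]
      rw [h1]
      apply isOpen_biInter_finset
      intro x _
      have h2 : Continuous fun ψ : R → ℝ => |ψ x - φ x| :=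
        ((continuous_apply x).sub continuous_const).abs
      exact isOpen_lt h2 continuous_const
    apply hopen.mem_nhds
    intro x _
    rw [sub_self, abs_zero]
    exact hδ φ hφ
  obtain ⟨t, htS, hcov⟩ := hS.elim_nhds_subcover _ hU
  refine ⟨(t : Set (R → ℝ)), t.finite_toSet, fun φ hφ => htS φ hφ, ?_⟩
  intro ψ hψ
  have h3 := hcov hψ
  rw [Set.mem_iUnion₂] at h3
  obtain ⟨φ, hφ, h4⟩ := h3
  exact ⟨φ, hφ, h4⟩

/-- The values of two valuations which are close to a third one are ordered in the same way. -/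
theorem same_val {k K : Type} [Field k] [Field K] [Algebra k K] (V : Submodule k K) (δ : ℝ)
    (hδ : 0 < δ) (u v v₀ : RVal k K)
    (hv : ∀ f ∈ V, f ≠ 0 → |v.v f - u.v f| ≤ δ / 5)
    (hv₀ : ∀ f ∈ V, f ≠ 0 → |v₀.v f - u.v f| ≤ δ / 5)
    (hgap : ∀ f ∈ V, ∀ h ∈ V, f ≠ 0 → h ≠ 0 → v.v f < v.v h → v.v f + δ ≤ v.v h)
    (f h : K) (hf : f ∈ V) (hh : h ∈ V) (hf0 : f ≠ 0) (hh0 : h ≠ 0) (heq : v₀.v f = v₀.v h) :
    v.v f = v.v h := by
  have h1 := abs_le.1 (hv f hf hf0)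
  have h2 := abs_le.1 (hv h hh hh0)
  have h3 := abs_le.1 (hv₀ f hf hf0)
  have h4 := abs_le.1 (hv₀ h hh hh0)
  rcases lt_trichotomy (v.v f) (v.v h) with hlt | he | hlt
  · have := hgap f hf h hh hf0 hh0 hlt
    linarith [h1.1, h1.2, h2.1, h2.2, h3.1, h3.2, h4.1, h4.2]
  · exact he
  · have := hgap h hh f hf hh0 hf0 hlt
    linarith [h1.1, h1.2, h2.1, h2.2, h3.1, h3.2, h4.1, h4.2]

/-- **CCF**: finitely many charts for the lc places whose values on a finite dimensional space have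
gaps bounded below. -/
theorem ccf (hUne : UneStmt) (hRgu : RguStmt) (hCpl : CplStmt) (hAdb : AdbStmt) (hJfd : JfdStmt)
    (_hLdb : LdbStmt) (hCnv : CnvStmt) (hAcp : AcpStmt) (_hMnz : Pool.Agent.CNL.MnzStmt) :
    CcfStmt := by
  classical
  intro k R K _ _ _ _ _ _ _ _ _ _ _ n F l g m a c hl hg hR hklt hlct
  set φ : R →ₗ[k] K := (IsScalarTower.toAlgHom k R K).toLinearMap with hφ
  have hφa : ∀ x : R, φ x = algebraMap R K x := fun x => rfl
  obtain ⟨E, hE, hch⟩ := hUne k R K n F l g m a c hl hg hR hklt hlct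
  have hfE : FiniteDimensional k ↥(E.map φ) := by infer_instance
  obtain ⟨J, hJ, hjac⟩ := hJfd k K n F (E.map φ)
  set V : Submodule k K := E.map φ ⊔ J with hV
  have hfV : FiniteDimensional k ↥V := by infer_instance
  refine ⟨E, V, hE, hfV, ?_⟩
  intro δ hδ
  by_cases hex : ∃ v : RVal k K, IsLcPlace F l g a c v ∧ seqVal v a = 1
  swap
  · refine ⟨∅, Set.finite_empty, fun e he => absurd he (Set.notMem_empty e), ?_⟩
    intro v hv hv1
    exact absurd ⟨v, hv, hv1⟩ hex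
  obtain ⟨u₀, hu₀, hu₀1⟩ := hex
  have hpos : ∃ f : R, f ≠ 0 ∧ 0 < u₀.v (algebraMap R K f) := by
    by_contra hcon
    push Not at hcon
    have := Pool.Agent.UCH.H84.seq_zero a u₀
      (fun f hf => le_antisymm (hcon f hf) (hu₀.1.1 f hf))
    rw [hu₀1] at this
    exact one_ne_zero this
  have hc : 0 < c := by
    have h1 := hklt u₀ hu₀.1.1 hpos
    rw [hu₀.2, hu₀1, mul_one] at h1
    exact_mod_cast h1
  have hEV : ∀ e ∈ E, algebraMap R K e ∈ V := fun e he =>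
    Submodule.mem_sup_left ⟨e, he, hφa e⟩
  have hJV : ∀ x ∈ J, x ∈ V := fun x hx => Submodule.mem_sup_right hx
  -- the finite cover
  have hcomp : IsCompact (Pool.Agent.CNL.LCS F l g a c) :=
    hCpl k R K n F l g m a c hl hg (germK_of_germ hR) hklt hlct
  have hrgu : ∀ ψ : R → ℝ, ∃ (u : RVal k K) (X : Finset R) (η : ℝ),
      (ψ ∈ Pool.Agent.CNL.LCS F l g a c → 0 < η ∧
        (∀ f : R, f ≠ 0 → ψ f = u.v (algebraMap R K f)) ∧
        ∀ v : RVal k K, IsLcPlace F l g a c v →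
          (∀ x ∈ X, x ≠ 0 → |v.v (algebraMap R K x) - u.v (algebraMap R K x)| < η) →
          ∀ f ∈ V, f ≠ 0 → |v.v f - u.v f| ≤ δ / 5) := by
    intro ψ
    by_cases hψ : ψ ∈ Pool.Agent.CNL.LCS F l g a c
    · obtain ⟨u, hu, hu1, hψ0, hψf⟩ := hψ
      obtain ⟨X, η, hη, hXη⟩ := hRgu k R K n F l g m a c u hl hg hc.le hR hlct hu V (δ / 5)
        (by positivity)
      exact ⟨u, X, η, fun _ => ⟨hη, hψf, hXη⟩⟩
    · exact ⟨u₀, ∅, 1, fun h => absurd h hψ⟩
  choose U X η hU using hrgu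
  obtain ⟨t, htfin, htS, hcov⟩ := cover hcomp X η (fun ψ hψ => (hU ψ hψ).1)
  have hclose : ∀ v : RVal k K, IsLcPlace F l g a c v → seqVal v a = 1 → ∃ ψ ∈ t,
      ∀ f ∈ V, f ≠ 0 → |v.v f - (U ψ).v f| ≤ δ / 5 := by
    intro v hv hv1
    obtain ⟨ψ, hψt, hψ⟩ := hcov (fun f : R => if f = 0 then (0 : ℝ) else v.v (algebraMap R K f))
      ⟨v, hv, hv1, if_pos rfl, fun f hf => if_neg hf⟩
    obtain ⟨-, h2, h3⟩ := hU ψ (htS hψt)
    refine ⟨ψ, hψt, h3 v hv ?_⟩
    intro x hx hx0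
    have h4 := hψ x hx
    simp only [hx0, if_false] at h4
    rw [h2 x hx0] at h4
    exact h4
  -- the set of the valuations near one function
  have hone : ∀ ψ : R → ℝ, ∃ Z : Set (Fin n → R), Z.Finite ∧ (∀ e ∈ Z, ∀ i, e i ∈ E) ∧
      ∀ v : RVal k K, IsLcPlace F l g a c v → seqVal v a = 1 →
        (∀ f ∈ V, ∀ h ∈ V, f ≠ 0 → h ≠ 0 → v.v f < v.v h → v.v f + δ ≤ v.v h) →
        (∀ f ∈ V, f ≠ 0 → |v.v f - (U ψ).v f| ≤ δ / 5) →
        ∃ e ∈ Z, IsMonomial v (fun i => algebraMap R K (e i)) := by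
    intro ψ
    by_cases hne : ∃ v₀ : RVal k K, ∀ f ∈ V, f ≠ 0 → |v₀.v f - (U ψ).v f| ≤ δ / 5
    swap
    · refine ⟨∅, Set.finite_empty, fun e he => absurd he (Set.notMem_empty e), ?_⟩
      intro v _ _ _ h
      exact absurd ⟨v, h⟩ hne
    obtain ⟨v₀, hv₀⟩ := hne
    obtain ⟨S, hS⟩ : ∃ S : Set (Fin n → R), S = {e | (∀ i, e i ∈ E) ∧
        F.jac (fun i => algebraMap R K (e i)) ≠ 0 ∧ (∀ i, algebraMap R K (e i) ≠ 0)} := ⟨_, rfl⟩
    obtain ⟨vec, hvec⟩ : ∃ vec : (Fin n → R) → (Fin n → ℝ) × ℝ, vec = fun e =>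
        (fun i => v₀.v (algebraMap R K (e i)), v₀.v (F.jac (fun i => algebraMap R K (e i)))) :=
      ⟨_, rfl⟩
    have hfinV := (hAdb k K v₀ V).1
    have himg : (vec '' S).Finite := by
      apply ((Set.Finite.pi' (fun _ : Fin n => hfinV)).prod hfinV).subset
      rintro p ⟨e, he, rfl⟩
      rw [hS] at he
      obtain ⟨h1, h2, h3⟩ := he
      rw [hvec]
      refine ⟨fun i => ⟨_, hEV _ (h1 i), h3 i, rfl⟩, ⟨_, hJV _ (hjac _ ?_), h2, rfl⟩⟩
      intro i
      exact ⟨e i, h1 i, hφa (e i)⟩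
    obtain ⟨Z, hZS, hbij⟩ := Set.exists_subset_bijOn S vec
    have hZfin : Z.Finite := hbij.finite_iff_finite.2 himg
    refine ⟨Z, hZfin, ?_, ?_⟩
    · intro e he i
      have h1 := hZS he
      rw [hS] at h1
      exact h1.1 i
    intro v hv hv1 hgap hnear
    obtain ⟨e, heE, hmon⟩ := hch v hv
    have hlv : logDisc F l g v = ((c : ℝ) : EReal) := by rw [hv.2, hv1, mul_one]
    obtain ⟨hjz, hsum, hdsc⟩ := hAcp k R K n F l g m c v _ hR hlv hmon
    have heS : e ∈ S := by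
      rw [hS]
      exact ⟨heE, hjz, hmon.1⟩
    obtain ⟨e', he'Z, he'⟩ := hbij.surjOn ⟨e, heS, rfl⟩
    have he'S : (∀ i, e' i ∈ E) ∧ F.jac (fun i => algebraMap R K (e' i)) ≠ 0 ∧
        (∀ i, algebraMap R K (e' i) ≠ 0) := by
      have h1 := hZS he'Z
      rw [hS] at h1
      exact h1
    rw [hvec] at he'
    have hv1' : ∀ i, v₀.v (algebraMap R K (e' i)) = v₀.v (algebraMap R K (e i)) := by
      intro i
      exact congrFun (congrArg Prod.fst he') i
    have hv2' : v₀.v (F.jac (fun i => algebraMap R K (e' i))) =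
        v₀.v (F.jac (fun i => algebraMap R K (e i))) := congrArg Prod.snd he'
    have hw1 : ∀ i, v.v (algebraMap R K (e' i)) = v.v (algebraMap R K (e i)) := by
      intro i
      exact same_val V δ hδ (U ψ) v v₀ hnear hv₀ hgap _ _ (hEV _ (he'S.1 i)) (hEV _ (heE i))
        (he'S.2.2 i) (hmon.1 i) (hv1' i)
    have hw2 : v.v (F.jac (fun i => algebraMap R K (e' i))) =
        v.v (F.jac (fun i => algebraMap R K (e i))) :=
      same_val V δ hδ (U ψ) v v₀ hnear hv₀ hgap _ _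
        (hJV _ (hjac _ (fun i => ⟨e' i, he'S.1 i, hφa (e' i)⟩)))
        (hJV _ (hjac _ (fun i => ⟨e i, heE i, hφa (e i)⟩))) he'S.2.1 hjz hv2'
    refine ⟨e', he'Z, ?_⟩
    have heq : c - v.v g / l = (∑ i, v.v (algebraMap R K (e i))) -
        v.v (F.jac (fun i => algebraMap R K (e i))) := by linarith [hsum]
    rw [heq] at hdsc
    refine hCnv k K n F v (fun i => algebraMap R K (e i)) (fun i => algebraMap R K (e' i)) hmon
      hdsc he'S.2.1 ?_
    rw [hw2]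
    apply le_of_eq
    congr 1
    exact Finset.sum_congr rfl (fun i _ => (hw1 i).symm)
  choose Z hZ1 hZ2 hZ3 using hone
  refine ⟨⋃ ψ ∈ t, Z ψ, htfin.biUnion (fun ψ _ => hZ1 ψ), ?_, ?_⟩
  · intro e he
    rw [Set.mem_iUnion₂] at he
    obtain ⟨ψ, _, he⟩ := he
    exact hZ2 ψ e he
  · intro v hv hv1 hgap
    obtain ⟨ψ, hψt, hnear⟩ := hclose v hv hv1
    obtain ⟨e, heZ, hmon⟩ := hZ3 ψ v hv hv1 hgap hnear
    exact ⟨e, Set.mem_iUnion₂.2 ⟨ψ, hψt, heZ⟩, hmon⟩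

end Pool.Agent.UCH.H72
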